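import Pool.Agent.Helper73.HU.St

/-!
# HU module FO: Fodor's lemma for ordinals of uncountable cofinality
-/

namespace Pool.Agent.Helper68.HU

open Ordinal Cardinal ZFSet Order Pool.Agent.Helper73.HODC Pool.Agent.Helper73.HE
  Pool.Agent.Helper73.HM Pool.Agent.Helper73.HU

theorem fo (h2 : StNMap) (h3 : StTR) : StFO := by
  intro τ S r hun hS hr
  have hτ : IsSuccLimit τ := isSuccLimit_of_cof hun
  obtain ⟨h, hN, hh⟩ := h2 τ hτ
  set c := τ.cof with hc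
  have hreg : c.IsRegular :=
    ⟨Ordinal.aleph0_le_cof_iff.2 (one_lt_cof_iff.2 hτ), by rw [Ordinal.cof_ord_cof]⟩
  have hcc : c.ord.cof = c := hreg.cof_ord
  have hμ : ℵ₀ < c.ord.cof := by rw [hcc]; exact hun
  have hS1 : Stat {j | h j ∈ S} c.ord := by
    rw [← h3 h hN c.ord hμ, hh]
    exact hS
  have hS2 : Stat ({j | h j ∈ S} ∩ {j | IsSuccLimit j}) c.ord := hS1.inter_club hμ (club_limit hμ)
  have hex : ∀ j : Ordinal.{0}, ∃ i, (h j ∈ S ∧ IsSuccLimit j ∧ j < c.ord) →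
      i < j ∧ r (h j) ≤ h i := by
    intro j
    by_cases hj : h j ∈ S ∧ IsSuccLimit j ∧ j < c.ord
    · obtain ⟨hj1, hj2, hj3⟩ := hj
      have h4 : h j < τ := by
        rw [← hh]
        exact hN.strictMono hj3
      have h5 : h j ≠ 0 := (lt_of_le_of_lt zero_le (hN.strictMono hj2.bot_lt)).ne'
      obtain ⟨i, hi, hi'⟩ := (hN.lt_iff_exists_lt hj2).1 (hr _ hj1 h4 h5)
      exact ⟨i, fun _ => ⟨hi, hi'.le⟩⟩
    · exact ⟨0, fun h' => absurd h' hj⟩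
  choose r' hr' using hex
  obtain ⟨i, hi, hst⟩ := fodor hreg hun hS2 (r := r')
    (fun a ha hac _ => (hr' a ⟨ha.1, ha.2, hac⟩).1)
  refine ⟨h i, ?_, ?_⟩
  · rw [← hh]
    exact hN.strictMono hi
  · rw [← hh, h3 h hN c.ord hμ]
    refine hst.mono ?_
    rintro a ⟨⟨ha1, ha2⟩, ha3⟩ hac
    refine ⟨ha1, ?_⟩
    rw [← ha3]
    exact (hr' a ⟨ha1, ha2, hac⟩).2

end Pool.Agent.Helper68.HU
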