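import Pool.Agent.Helper73.HU.St

/-!
# HU module NMap: a limit ordinal is the limit of a normal sequence of length its cofinality
-/

namespace Pool.Agent.Helper68.HU

open Ordinal Cardinal ZFSet Order Pool.Agent.Helper73.HODC Pool.Agent.Helper73.HE
  Pool.Agent.Helper73.HM Pool.Agent.Helper73.HU

/-- the normal function built from a sequence of ordinals -/
noncomputable def nseq (g : Ordinal.{0} → Ordinal.{0}) : Ordinal.{0} → Ordinal.{0} :=
  WellFounded.fix (C := fun _ => Ordinal.{0}) Ordinal.lt_wf
    (fun i H => ⨆ j : Set.Iio i, max (H j.1 j.2) (g j.1) + 1)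

theorem nseq_eq (g : Ordinal.{0} → Ordinal.{0}) (i : Ordinal.{0}) :
    nseq g i = ⨆ j : Set.Iio i, max (nseq g j.1) (g j.1) + 1 := by
  unfold nseq
  rw [WellFounded.fix_eq]

theorem nseq_lt (g : Ordinal.{0} → Ordinal.{0}) {j i : Ordinal.{0}} (h : j < i) :
    max (nseq g j) (g j) + 1 ≤ nseq g i := by
  rw [nseq_eq g i]
  exact Ordinal.le_iSup (fun j : Set.Iio i => max (nseq g j.1) (g j.1) + 1) ⟨j, h⟩

theorem nseq_strictMono (g : Ordinal.{0} → Ordinal.{0}) : StrictMono (nseq g) := by
  intro j i h
  refine lt_of_lt_of_le ?_ (nseq_lt g h)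
  exact lt_of_le_of_lt (le_max_left _ _) (lt_add_one _)

theorem nseq_le (g : Ordinal.{0} → Ordinal.{0}) {i a : Ordinal.{0}}
    (h : ∀ j < i, max (nseq g j) (g j) + 1 ≤ a) : nseq g i ≤ a := by
  rw [nseq_eq g i]
  apply Ordinal.iSup_le
  intro j
  exact h j.1 j.2

theorem nseq_normal (g : Ordinal.{0} → Ordinal.{0}) : Order.IsNormal (nseq g) := by
  rw [Order.isNormal_iff]
  refine ⟨nseq_strictMono g, ?_⟩
  intro o ho a ha
  apply nseq_le
  intro j hj
  exact (nseq_lt g (Order.lt_succ j)).trans (ha _ (ho.succ_lt hj))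

theorem nmap : StNMap := by
  intro τ hτ
  obtain ⟨μ, hμ⟩ : ∃ μ, μ = τ.cof.ord := ⟨_, rfl⟩
  rw [← hμ]
  obtain ⟨f, hf⟩ := exists_isFundamentalSeq (o := τ) hμ.symm
  have hμlim : IsSuccLimit μ := by
    rw [hμ]
    exact isSuccLimit_ord (Ordinal.aleph0_le_cof_iff.2 (one_lt_cof_iff.2 hτ))
  classical
  set g : Ordinal.{0} → Ordinal.{0} := fun i => if h : i < μ then (f ⟨i, h⟩).1 else 0 with hg
  have hgτ : ∀ i, g i < τ := by
    intro i
    simp only [hg]
    split_ifs with h
    · exact (f ⟨i, h⟩).2
    · exact hτ.bot_lt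
  have hN := nseq_normal g
  have hlt : ∀ i < μ, nseq g i < τ := by
    intro i
    induction i using WellFoundedLT.induction with
    | _ i ih =>
      intro hi
      rcases Ordinal.zero_or_succ_or_isSuccLimit i with h0 | ⟨j, hj⟩ | hlim
      · refine lt_of_le_of_lt (b := 0) ?_ hτ.bot_lt
        apply nseq_le
        intro j hj
        rw [h0] at hj
        exact absurd hj (not_lt.2 zero_le)
      · have hji : j < i := by rw [← hj]; exact Order.lt_succ j
        have hj' := ih j hji (hji.trans hi)
        have h1 : max (nseq g j) (g j) + 1 < τ := hτ.succ_lt (max_lt hj' (hgτ j))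
        refine lt_of_le_of_lt ?_ h1
        apply nseq_le
        intro j' hj1
        rw [← hj, Order.lt_succ_iff] at hj1
        rcases eq_or_lt_of_le hj1 with h | h
        · rw [h]
        · exact (nseq_lt g h).trans ((le_max_left _ _).trans (lt_add_one _).le)
      · by_contra hcon
        have h1 : nseq g i = τ := by
          apply le_antisymm _ (not_lt.1 hcon)
          rw [hN.le_iff_forall_le hlim]
          intro a ha
          exact (ih a ha (ha.trans hi)).le
        have h2 := cof_map_of_isNormal hN hlim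
        rw [h1] at h2
        have h3 : i.cof ≤ i.card := cof_le_card i
        have h4 : i.card < τ.cof := by
          rw [← lt_ord, ← hμ]
          exact hi
        rw [← h2] at h3
        exact absurd (h3.trans_lt h4) (lt_irrefl _)
  refine ⟨nseq g, hN, ?_⟩
  apply le_antisymm
  · rw [hN.le_iff_forall_le hμlim]
    intro a ha
    exact (hlt a ha).le
  · apply le_of_forall_lt
    intro b hb
    obtain ⟨_, ⟨i, rfl⟩, hi⟩ := hf.isCofinal_range ⟨b, hb⟩
    have h1 : b ≤ g i.1 := by
      have h2 : g i.1 = (f i).1 := dif_pos i.2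
      rw [h2]
      exact hi
    calc b ≤ g i.1 := h1
      _ ≤ max (nseq g i.1) (g i.1) := le_max_right _ _
      _ < max (nseq g i.1) (g i.1) + 1 := lt_add_one _
      _ ≤ nseq g μ := nseq_lt g i.2

end Pool.Agent.Helper68.HU
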