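import Pool.Agent.Helper73.HU.St

/-!
# HU module RF: simultaneous reflection below ordinals of large cofinality
-/

namespace Pool.Agent.Helper68.HU

open Ordinal Cardinal ZFSet Order Pool.Agent.Helper73.HODC Pool.Agent.Helper73.HE
  Pool.Agent.Helper73.HM Pool.Agent.Helper73.HU

theorem isRegular_cof' {τ : Ordinal.{0}} (hτ : IsSuccLimit τ) : τ.cof.IsRegular :=
  ⟨Ordinal.aleph0_le_cof_iff.2 (one_lt_cof_iff.2 hτ), by rw [Ordinal.cof_ord_cof]⟩

theorem rf (h1 : StRefl) (h2 : StNMap) (h3 : StTR) : StRF := by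
  intro κ τ hκ hκτ ι hι A hA hAc
  have hun : ℵ₀ < τ.cof := hκ.unc.trans_le hκτ
  have hτ : IsSuccLimit τ := isSuccLimit_of_cof hun
  obtain ⟨h, hN, hh⟩ := h2 τ hτ
  set c := τ.cof with hc
  have hreg : c.IsRegular := isRegular_cof' hτ
  have hcc : c.ord.cof = c := hreg.cof_ord
  have hμ : ℵ₀ < c.ord.cof := by rw [hcc]; exact hun
  have hA' : ∀ i, Stat {j | h j ∈ A i} c.ord := by
    intro i
    rw [← h3 h hN c.ord hμ, hh]
    exact hA i
  have hAc' : ∀ i, ∀ j ∈ {j | h j ∈ A i}, j.cof < κ := by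
    intro i j hj
    rcases Ordinal.zero_or_succ_or_isSuccLimit j with h0 | ⟨j', hj'⟩ | hl
    · rw [h0, cof_zero]
      exact lt_of_le_of_lt zero_le hκ.unc
    · rw [← hj', Order.succ_eq_add_one, cof_add_one]
      exact one_lt_aleph0.trans hκ.unc
    · rw [← cof_map_of_isNormal hN hl]
      exact hAc i _ hj
  have hr := h1 κ c hκ hreg hκτ ι hι (fun i => {j | h j ∈ A i}) hA' hAc'
  rw [← hh, h3 h hN c.ord hμ]
  refine hr.mono ?_
  rintro σ ⟨hσ1, hσ2, hσ3⟩ -
  have hσlim := isSuccLimit_of_cof hσ1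
  have hcof := cof_map_of_isNormal hN hσlim
  refine ⟨by rw [hcof]; exact hσ1, by rw [hcof]; exact hσ2, fun i => ?_⟩
  rw [h3 h hN σ hσ1]
  exact hσ3 i

end Pool.Agent.Helper68.HU
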