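import Pool.Agent.Helper73.HU.St

/-!
# HU module TR: stationary sets correspond under a normal map
-/

namespace Pool.Agent.Helper68.HU

open Ordinal Cardinal ZFSet Order Pool.Agent.Helper73.HODC Pool.Agent.Helper73.HE
  Pool.Agent.Helper73.HM Pool.Agent.Helper73.HU

theorem tr_to {h : Ordinal.{0} → Ordinal.{0}} (hN : Order.IsNormal h) {μ : Ordinal.{0}}
    (hμ : ℵ₀ < μ.cof) {S : Set Ordinal.{0}} (hS : Stat S (h μ)) : Stat {i | h i ∈ S} μ := by
  intro D hD
  have hlim := isSuccLimit_of_cof hμ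
  have hC : Club {b | ∃ i, i < μ ∧ h i = b ∧ UnbIn D i ∧ i ≠ 0} (h μ) := by
    refine ⟨?_, ?_⟩
    · intro b hb
      obtain ⟨j, hj, hbj⟩ := (hN.lt_iff_exists_lt hlim).1 hb
      have hch : ∀ x : Ordinal.{0}, ∃ y, x < μ → y ∈ D ∧ x < y ∧ y < μ := by
        intro x
        by_cases hx : x < μ
        · obtain ⟨y, hy1, hy2, hy3⟩ := hD.1 x hx
          exact ⟨y, fun _ => ⟨hy1, hy2, hy3⟩⟩
        · exact ⟨0, fun h' => absurd h' hx⟩
      choose F hF using hch
      obtain ⟨s, hjs, hsμ, -, hs⟩ := exists_lim hμ F (fun x hx => (hF x hx).2) j hj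
      refine ⟨h s, ⟨s, hsμ, rfl, ?_, ?_⟩, hbj.trans (hN.strictMono hjs), hN.strictMono hsμ⟩
      · intro a ha
        obtain ⟨x, hx1, hx2, hx3⟩ := hs a ha
        exact ⟨F x, (hF x hx2).1, hx1.trans (hF x hx2).2.1, hx3⟩
      · exact (lt_of_le_of_lt zero_le hjs).ne'
    · intro b hb hb0 hu
      obtain ⟨j, hj, hbj⟩ := (hN.lt_iff_exists_lt hlim).1 hb
      set T : Set Ordinal.{0} := {j | b ≤ h j} with hT
      have hTne : T.Nonempty := ⟨j, hbj.le⟩
      set i := sInf T with hi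
      have hiT : b ≤ h i := csInf_mem hTne
      have hmin : ∀ a < i, h a < b := by
        intro a ha
        by_contra hcon
        exact absurd (csInf_le' (show a ∈ T from not_lt.1 hcon)) (not_le.2 ha)
      have hij : i ≤ j := csInf_le' (show j ∈ T from hbj.le)
      have hi0 : i ≠ 0 := by
        intro h0
        obtain ⟨c, ⟨i', h1, h2, h3, h4⟩, h5, h6⟩ := hu 0 (pos_iff_ne_zero.2 hb0)
        rw [← h2] at h6
        have : h i' < h i := h6.trans_le hiT
        rw [hN.strictMono.lt_iff_lt, h0] at this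
        exact absurd this (not_lt.2 zero_le)
      have hilim : IsSuccLimit i := by
        rcases Ordinal.zero_or_succ_or_isSuccLimit i with h0 | ⟨j', hj'⟩ | hl
        · exact absurd h0 hi0
        · exfalso
          have hj1 : j' < i := by rw [← hj']; exact Order.lt_succ j'
          obtain ⟨c, ⟨i', h1, h2, h3, h4⟩, h5, h6⟩ := hu (h j') (hmin j' hj1)
          rw [← h2] at h5 h6
          have h7 : i' < i := hN.strictMono.lt_iff_lt.1 (h6.trans_le hiT)
          have h8 : j' < i' := hN.strictMono.lt_iff_lt.1 h5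
          rw [← hj', Order.lt_succ_iff] at h7
          exact absurd h8 (not_lt.2 h7)
        · exact hl
      refine ⟨i, hij.trans_lt hj, ?_, ?_, hi0⟩
      · apply le_antisymm _ hiT
        rw [hN.le_iff_forall_le hilim]
        intro a ha
        exact (hmin a ha).le
      · intro a ha
        obtain ⟨c, ⟨i', h1, h2, h3, h4⟩, h5, h6⟩ := hu (h a) (hmin a ha)
        rw [← h2] at h5 h6
        have h7 : i' < i := hN.strictMono.lt_iff_lt.1 (h6.trans_le hiT)
        have h8 : a < i' := hN.strictMono.lt_iff_lt.1 h5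
        obtain ⟨d, hd1, hd2, hd3⟩ := h3 a h8
        exact ⟨d, hd1, hd2, hd3.trans h7⟩
  obtain ⟨a, haS, ⟨i, h1, h2, h3, h4⟩, hah⟩ := hS _ hC
  refine ⟨i, ?_, hD.2 i h1 h4 h3, h1⟩
  change h i ∈ S
  rw [h2]
  exact haS

theorem tr_from {h : Ordinal.{0} → Ordinal.{0}} (hN : Order.IsNormal h) {μ : Ordinal.{0}}
    (hμ : ℵ₀ < μ.cof) {S : Set Ordinal.{0}} (hS : Stat {i | h i ∈ S} μ) : Stat S (h μ) := by
  intro C hC
  have hlim := isSuccLimit_of_cof hμ
  have hD : Club {i | h i ∈ C} μ := by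
    refine ⟨?_, ?_⟩
    · intro j hj
      have hch : ∀ x : Ordinal.{0}, ∃ y, x < μ →
          (x < y ∧ y < μ) ∧ ∃ c ∈ C, h x < c ∧ c < h y := by
        intro x
        by_cases hx : x < μ
        · obtain ⟨c, hc1, hc2, hc3⟩ := hC.1 (h x) (hN.strictMono hx)
          obtain ⟨y, hy, hcy⟩ := (hN.lt_iff_exists_lt hlim).1 hc3
          refine ⟨y, fun _ => ⟨⟨?_, hy⟩, c, hc1, hc2, hcy⟩⟩
          exact hN.strictMono.lt_iff_lt.1 (hc2.trans hcy)
        · exact ⟨0, fun h' => absurd h' hx⟩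
      choose F hF using hch
      obtain ⟨s, hjs, hsμ, hcof, hs⟩ := exists_lim hμ F (fun x hx => (hF x hx).1) j hj
      have hslim : IsSuccLimit s := one_lt_cof_iff.mp (by rw [hcof]; exact one_lt_aleph0)
      refine ⟨s, ?_, hjs, hsμ⟩
      refine hC.2 (h s) (hN.strictMono hsμ) ?_ ?_
      · exact (lt_of_le_of_lt zero_le (hN.strictMono hjs)).ne'
      · intro a ha
        obtain ⟨y, hy, hay⟩ := (hN.lt_iff_exists_lt hslim).1 ha
        obtain ⟨x, hx1, hx2, hx3⟩ := hs y hy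
        obtain ⟨c, hc1, hc2, hc3⟩ := (hF x hx2).2
        exact ⟨c, hc1, (hay.trans (hN.strictMono hx1)).trans hc2,
          hc3.trans (hN.strictMono hx3)⟩
    · intro i hi hi0 hu
      have hilim := hu.isSuccLimit hi0
      refine hC.2 (h i) (hN.strictMono hi) ?_ ?_
      · exact (lt_of_le_of_lt zero_le (hN.strictMono (pos_iff_ne_zero.2 hi0))).ne'
      · intro a ha
        obtain ⟨y, hy, hay⟩ := (hN.lt_iff_exists_lt hilim).1 ha
        obtain ⟨d, hd1, hd2, hd3⟩ := hu y hy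
        exact ⟨h d, hd1, hay.trans (hN.strictMono hd2), hN.strictMono hd3⟩
  obtain ⟨i, hi1, hi2, hi3⟩ := hS _ hD
  exact ⟨h i, hi1, hi2, hN.strictMono hi3⟩

theorem tr : StTR := fun _ hN _ hμ _ => ⟨tr_to hN hμ, tr_from hN hμ⟩

end Pool.Agent.Helper68.HU
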